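import Mathlib

/-!
# An unsaturated binary secondary structure that is not designable

The structure `(.(((.((.)(().))).)(.)))` on `24` positions has a binary unsaturated tree, but it is
not designable: for every sequence compatible with it there is another arc set with at least as
many arcs.  The decision tree of alternatives was found by computer and is checked by the kernel.
-/

set_option autoImplicit false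

namespace Pool.Agent.Results.MP_4bbd08_co.NonDesignable

/-- The four letters. -/
inductive Base
  | A | C | G | U
deriving DecidableEq

/-- The allowed pairs: `{A, U}` and `{G, C}`. -/
def Pairs (x y : Base) : Prop :=
  (x = .A ∧ y = .U) ∨ (x = .U ∧ y = .A) ∨ (x = .G ∧ y = .C) ∨ (x = .C ∧ y = .G)

/-- `R` is a secondary structure on `{1, …, n}`: a set of arcs `(i, j)`, `1 ≤ i < j ≤ n`, no two
sharing an endpoint and no two crossing. -/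
def IsSecondary (n : ℕ) (R : Finset (ℕ × ℕ)) : Prop :=
  (∀ a ∈ R, 1 ≤ a.1 ∧ a.1 < a.2 ∧ a.2 ≤ n) ∧
  (∀ a ∈ R, ∀ b ∈ R, a ≠ b → a.1 ≠ b.1 ∧ a.1 ≠ b.2 ∧ a.2 ≠ b.1 ∧ a.2 ≠ b.2) ∧
  (∀ a ∈ R, ∀ b ∈ R, ¬ (a.1 < b.1 ∧ b.1 < a.2 ∧ a.2 < b.2))

/-- The unpaired positions of `R`. -/
def unpaired (n : ℕ) (R : Finset (ℕ × ℕ)) : Finset ℕ :=
  (Finset.Icc 1 n).filter fun p => ∀ a ∈ R, a.1 ≠ p ∧ a.2 ≠ p

/-- The vertices of the tree `T(R)`: the arcs `(i, j)` of `R` (two-dot vertices), and the pairs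
`(p, p)` for the unpaired positions `p` (one-dot vertices). -/
def vertices (n : ℕ) (R : Finset (ℕ × ℕ)) : Finset (ℕ × ℕ) :=
  R ∪ (unpaired n R).image fun p => (p, p)

/-- `a` is the parent of `x` in `T(R)`: `a` is the innermost arc of `R` strictly enclosing `x`. -/
def IsParent (R : Finset (ℕ × ℕ)) (a x : ℕ × ℕ) : Prop :=
  a ∈ R ∧ (a.1 < x.1 ∧ x.2 < a.2) ∧
    ∀ b ∈ R, b.1 < x.1 ∧ x.2 < b.2 → b.1 ≤ a.1 ∧ a.2 ≤ b.2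

instance (R : Finset (ℕ × ℕ)) (a x : ℕ × ℕ) : Decidable (IsParent R a x) := by
  unfold IsParent; infer_instance

/-- `T(R)` is binary: every vertex has at most two children. -/
def Binary (n : ℕ) (R : Finset (ℕ × ℕ)) : Prop :=
  ∀ a ∈ vertices n R, ((vertices n R).filter fun x => IsParent R a x).card ≤ 2

/-- `T(R)` is unsaturated: some position is unpaired (that is, some leaf is a one-dot vertex). -/
def Unsaturated (n : ℕ) (R : Finset (ℕ × ℕ)) : Prop := (unpaired n R).Nonempty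

/-- `M` is an arc set for the sequence `S` of length `n` (only `S 1, …, S n` matter): a secondary
structure each of whose arcs joins two letters that may pair. -/
def IsArcSet (n : ℕ) (S : ℕ → Base) (M : Finset (ℕ × ℕ)) : Prop :=
  IsSecondary n M ∧ ∀ a ∈ M, Pairs (S a.1) (S a.2)

/-- `R` is designable: some sequence `S` has `R` as its unique arc set of maximum size. -/
def Designable (n : ℕ) (R : Finset (ℕ × ℕ)) : Prop :=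
  ∃ S : ℕ → Base, IsArcSet n S R ∧ ∀ M, IsArcSet n S M → M ≠ R → M.card < R.card

/-! ### The structure and the decision tree -/

/-- The arcs of the structure `(.(((.((.)(().))).)(.)))`. -/
def RL : List (ℕ × ℕ) :=
  [(1, 24), (3, 23), (4, 19), (5, 17), (7, 16), (8, 10), (11, 15), (12, 13), (20, 22)]

/-- Codes of the letters. -/
def code : Base → ℕ
  | .A => 0 | .U => 1 | .G => 2 | .C => 3

/-- The complementary letter. -/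
def comp : ℕ → ℕ
  | 0 => 1 | 1 => 0 | 2 => 3 | 3 => 2 | _ => 4

/-- The Boolean version of `Pairs` on codes. -/
def okp (a b : ℕ) : Bool :=
  (a == 0 && b == 1) || (a == 1 && b == 0) || (a == 2 && b == 3) || (a == 3 && b == 2)

/-- Decision trees: a leaf names an alternative arc set, `N v m` branches on the letter of the arc
`(v, m)`, `D v` on the letter of the unpaired position `v`. -/
inductive T
  | L (i : ℕ)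
  | N (v m : ℕ) (t0 t1 t2 t3 : T)
  | D (v : ℕ) (t0 t1 t2 t3 : T)

/-- Set the letter of `v`. -/
def upd (e : ℕ → ℕ) (v c : ℕ) : ℕ → ℕ := fun p => if p == v then c else e p

/-- The test of the decision tree. -/
def chk (al : List (List (ℕ × ℕ))) : T → (ℕ → ℕ) → Bool
  | .L i, e => match al[i]? with
    | none => false
    | some l => l.all fun q => RL.contains q || okp (e q.1) (e q.2)
  | .N v m t0 t1 t2 t3, e => RL.contains (v, m) &&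
      (chk al t0 (upd (upd e v 0) m 1) && (chk al t1 (upd (upd e v 1) m 0) &&
        (chk al t2 (upd (upd e v 2) m 3) && chk al t3 (upd (upd e v 3) m 2))))
  | .D v t0 t1 t2 t3, e =>
      chk al t0 (upd e v 0) && (chk al t1 (upd e v 1) &&
        (chk al t2 (upd e v 2) && chk al t3 (upd e v 3)))

/-- The alternative arc sets. -/
def alts : List (List (ℕ × ℕ)) :=
  [[(1, 24), (3, 23), (4, 19), (5, 17), (7, 16), (8, 10), (11, 15), (13, 14), (20, 22)],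
   [(1, 24), (3, 23), (4, 19), (5, 17), (7, 16), (8, 10), (11, 15), (12, 14), (20, 22)],
   [(1, 24), (3, 23), (4, 19), (5, 17), (7, 16), (9, 10), (11, 15), (12, 13), (20, 22)],
   [(1, 24), (3, 23), (4, 19), (5, 17), (7, 16), (8, 9), (11, 15), (12, 13), (20, 22)],
   [(1, 24), (3, 23), (4, 19), (5, 17), (7, 16), (9, 15), (10, 14), (12, 13), (20, 22)],
   [(1, 24), (3, 23), (4, 19), (5, 17), (6, 16), (8, 10), (11, 15), (12, 13), (20, 22)],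
   [(1, 24), (3, 23), (4, 19), (5, 17), (6, 7), (8, 10), (11, 15), (12, 13), (20, 22)],
   [(1, 24), (3, 23), (4, 19), (5, 17), (6, 8), (9, 16), (11, 15), (12, 13), (20, 22)],
   [(1, 24), (3, 23), (4, 19), (7, 16), (8, 10), (11, 15), (12, 13), (17, 18), (20, 22)],
   [(1, 24), (3, 23), (4, 19), (5, 18), (7, 16), (8, 10), (11, 15), (12, 13), (20, 22)],
   [(1, 24), (3, 23), (4, 19), (6, 18), (7, 16), (8, 10), (11, 15), (12, 13), (20, 22)],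
   [(1, 24), (3, 23), (4, 22), (5, 17), (7, 16), (8, 10), (11, 15), (12, 13), (19, 21)],
   [(1, 24), (3, 23), (4, 19), (5, 17), (7, 16), (8, 10), (11, 15), (12, 13), (20, 21)],
   [(1, 24), (3, 23), (4, 16), (5, 15), (6, 14), (8, 10), (12, 13), (17, 21), (18, 20)],
   [(1, 24), (3, 23), (5, 17), (7, 16), (8, 10), (11, 15), (12, 13), (18, 22), (19, 21)],
   [(1, 24), (3, 23), (4, 19), (5, 17), (7, 16), (8, 10), (11, 15), (12, 13), (21, 22)],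
   [(1, 24), (3, 23), (4, 21), (5, 17), (7, 16), (8, 10), (11, 15), (12, 13), (18, 20)],
   [(1, 24), (2, 23), (3, 21), (4, 19), (5, 17), (7, 16), (8, 10), (11, 15), (12, 13)],
   [(1, 24), (2, 3), (4, 23), (5, 17), (7, 16), (8, 10), (11, 15), (12, 13), (20, 22)],
   [(1, 24), (2, 18), (3, 17), (4, 16), (5, 15), (6, 14), (8, 10), (12, 13), (20, 22)],
   [(1, 24), (2, 22), (3, 21), (4, 19), (5, 17), (7, 16), (8, 10), (11, 15), (12, 13)],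
   [(1, 24), (3, 4), (5, 17), (7, 16), (8, 10), (11, 15), (12, 13), (19, 23), (20, 22)],
   [(1, 24), (3, 20), (4, 19), (5, 17), (7, 16), (8, 10), (11, 15), (12, 13), (22, 23)],
   [(1, 24), (2, 17), (4, 16), (5, 15), (6, 14), (8, 10), (12, 13), (18, 23), (20, 22)],
   [(1, 24), (2, 4), (5, 17), (7, 16), (8, 10), (11, 15), (12, 13), (18, 23), (20, 22)],
   [(1, 24), (2, 3), (4, 19), (5, 17), (7, 16), (8, 10), (11, 15), (12, 13), (20, 22)],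
   [(1, 24), (2, 23), (4, 19), (5, 17), (7, 16), (8, 10), (11, 15), (12, 13), (20, 22)],
   [(1, 24), (3, 23), (4, 22), (5, 17), (7, 16), (8, 10), (11, 15), (12, 13), (18, 21), (19, 20)],
   [(1, 24), (3, 23), (4, 16), (5, 15), (6, 14), (8, 10), (12, 13), (17, 22), (18, 21)],
   [(1, 24), (3, 23), (4, 22), (5, 17), (7, 16), (8, 10), (11, 15), (12, 13), (19, 20)],
   [(1, 24), (2, 19), (3, 18), (5, 17), (7, 16), (8, 10), (11, 15), (12, 13), (20, 22)],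
   [(1, 24), (2, 20), (4, 19), (5, 17), (7, 16), (8, 10), (11, 15), (12, 13), (21, 23)],
   [(1, 24), (3, 23), (4, 5), (7, 16), (8, 10), (11, 15), (12, 13), (17, 19), (20, 22)],
   [(1, 24), (3, 23), (4, 18), (5, 17), (7, 16), (8, 10), (11, 15), (12, 13), (20, 22)],
   [(1, 24), (3, 23), (5, 17), (7, 16), (8, 10), (11, 15), (12, 13), (18, 19), (20, 22)],
   [(1, 24), (3, 23), (4, 19), (5, 7), (8, 10), (11, 15), (12, 13), (16, 17), (20, 22)],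
   [(1, 24), (3, 23), (4, 19), (5, 6), (7, 16), (8, 10), (11, 15), (12, 13), (20, 22)],
   [(1, 24), (3, 23), (4, 19), (6, 17), (7, 16), (8, 10), (11, 15), (12, 13), (20, 22)],
   [(1, 24), (3, 23), (4, 19), (5, 17), (7, 11), (8, 10), (12, 13), (15, 16), (20, 22)],
   [(1, 24), (3, 23), (4, 19), (5, 17), (7, 8), (10, 16), (11, 15), (12, 13), (20, 22)],
   [(1, 24), (3, 23), (4, 19), (5, 17), (6, 15), (7, 14), (8, 10), (12, 13), (20, 22)],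
   [(1, 24), (3, 23), (4, 16), (5, 14), (6, 11), (8, 10), (12, 13), (17, 22), (18, 21)],
   [(1, 24), (2, 17), (4, 16), (5, 14), (6, 11), (8, 10), (12, 13), (18, 23), (20, 22)],
   [(1, 24), (2, 18), (3, 17), (4, 16), (5, 14), (6, 11), (8, 10), (12, 13), (20, 22)],
   [(1, 24), (3, 23), (4, 16), (5, 14), (6, 11), (8, 10), (12, 13), (17, 21), (18, 20)],
   [(1, 24), (3, 23), (4, 19), (5, 17), (6, 10), (7, 9), (11, 15), (12, 13), (20, 22)],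
   [(1, 24), (3, 23), (4, 19), (5, 16), (6, 14), (8, 10), (12, 13), (17, 18), (20, 22)],
   [(1, 24), (3, 23), (4, 17), (5, 16), (6, 14), (8, 10), (12, 13), (18, 22), (19, 21)],
   [(1, 24), (2, 19), (3, 18), (4, 17), (5, 16), (6, 14), (8, 10), (12, 13), (20, 22)],
   [(1, 24), (3, 23), (4, 16), (5, 10), (6, 9), (11, 15), (12, 13), (17, 22), (18, 21)],
   [(1, 24), (3, 23), (4, 16), (5, 10), (6, 9), (11, 15), (12, 13), (17, 21), (18, 20)],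
   [(1, 24), (2, 17), (4, 16), (5, 10), (6, 9), (11, 15), (12, 13), (18, 23), (20, 22)],
   [(1, 24), (2, 18), (3, 17), (4, 16), (5, 10), (6, 9), (11, 15), (12, 13), (20, 22)],
   [(1, 24), (2, 4), (5, 23), (6, 22), (7, 21), (8, 19), (9, 18), (11, 15), (12, 13)],
   [(1, 24), (3, 23), (4, 22), (5, 21), (7, 16), (8, 10), (11, 15), (12, 13), (17, 20)],
   [(1, 24), (3, 23), (4, 19), (5, 17), (6, 11), (8, 10), (12, 13), (14, 16), (20, 22)],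
   [(1, 24), (3, 23), (4, 19), (5, 17), (7, 16), (8, 14), (9, 11), (12, 13), (20, 22)],
   [(1, 24), (3, 23), (4, 19), (5, 17), (7, 16), (8, 15), (10, 11), (12, 13), (20, 22)],
   [(1, 24), (3, 23), (4, 19), (5, 17), (7, 16), (8, 15), (9, 14), (10, 11), (12, 13), (20, 22)],
   [(1, 24), (2, 19), (3, 18), (4, 17), (5, 16), (8, 10), (11, 15), (12, 13), (20, 22)],
   [(1, 24), (3, 23), (4, 16), (5, 9), (6, 8), (11, 15), (12, 13), (17, 22), (18, 21)],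
   [(1, 24), (3, 23), (4, 17), (5, 16), (8, 10), (11, 15), (12, 13), (18, 22), (19, 21)],
   [(1, 24), (3, 23), (4, 16), (5, 9), (6, 8), (11, 15), (12, 13), (17, 21), (18, 20)],
   [(1, 24), (2, 17), (4, 16), (5, 9), (6, 8), (11, 15), (12, 13), (18, 23), (20, 22)],
   [(1, 24), (2, 18), (3, 17), (4, 16), (5, 9), (6, 8), (11, 15), (12, 13), (20, 22)],
   [(1, 24), (2, 3), (4, 23), (5, 19), (7, 16), (8, 10), (11, 15), (12, 13), (20, 22)],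
   [(1, 24), (3, 23), (4, 19), (5, 16), (8, 10), (11, 15), (12, 13), (17, 18), (20, 22)],
   [(1, 24), (3, 23), (4, 19), (5, 17), (7, 16), (8, 10), (11, 12), (13, 15), (20, 22)],
   [(1, 24), (3, 23), (4, 19), (5, 17), (7, 16), (8, 10), (12, 13), (14, 15), (20, 22)],
   [(1, 24), (3, 23), (4, 19), (5, 17), (7, 16), (8, 10), (11, 14), (12, 13), (20, 22)]]

/-- A part of the decision tree. -/
def t0 : T :=
  (.D 9 (.N 8 10 (.L 2) (.L 3) (.L 4) (.N 7 16 (.D 6 (.L 5) (.L 6) (.L 7) (.N 5 17 (.D 18 (.L 8) (.L 9) (.L 10) (.N 4 19 (.D 21 (.N 20 22 (.L 11) (.L 12) (.L 13) (.L 14)) (.N 20 22 (.L 12) (.L 15) (.L 16) (.N 3 23 (.D 2 (.L 17) (.L 18) (.L 19) (.L 20)) (.L 21) (.L 22) (.D 2 (.L 23) (.L 24) (.L 25) (.L 26)))) (.N 20 22 (.L 27) (.L 28) (.L 15) (.L 12)) (.N 20 22 (.L 29) (.N 3 23 (.L 22) (.L 21) (.D 2 (.L 30) (.L 20) (.L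 17) (.L 25)) (.D 2 (.L 31) (.L 24) (.L 25) (.L 26))) (.L 12) (.L 15))) (.L 32) (.L 33) (.L 34))) (.L 35) (.L 36) (.L 37))) (.L 38) (.L 39) (.D 6 (.L 40) (.N 5 17 (.L 36) (.L 37) (.L 35) (.D 18 (.L 10) (.N 4 19 (.L 33) (.L 34) (.L 32) (.D 21 (.N 20 22 (.L 15) (.L 12) (.L 41) (.L 27)) (.N 20 22 (.L 12) (.L 15) (.N 3 23 (.D 2 (.L 17) (.L 25) (.L 20) (.L 30)) (.D 2 (.L 25) (.L 26) (.L 24) (.L 31)) (.L 21) (.L 22)) (.L 29)) (.N 20 22 (.L 16) (.N 3 23 (.L 22) (.D 2 (.L 25) (.L 26) (.L 24) (.L 42)) (.L 21) (.D 2 (.L 43) (.L 20) (.L 25) (.L 17))) (.L 15) (.L 12)) (.N 20 22 (.L 44) (.L 14) (.L 12) (.L 11)))) (.L 9) (.L 8))) (.L 6) (.L 5)))) (.N 8 10 (.L 3) (.L 2) (.N 7 16 (.D 6 (.L 5) (.L 6) (.L 45) (.N 5 17 (.D 18 (.L 46) (.L 9) (.L 10) (.N 4 19 (.D 21 (.N 20 22 (.L 11) (.L 12) (.L 13) (.L 47)) (.N 20 22 (.L 12) (.L 15) (.L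 16) (.N 3 23 (.D 2 (.L 17) (.L 25) (.L 19) (.L 20)) (.L 21) (.L 22) (.D 2 (.L 23) (.L 24) (.L 25) (.L 26)))) (.N 20 22 (.L 27) (.L 28) (.L 15) (.L 12)) (.N 20 22 (.L 29) (.N 3 23 (.L 22) (.L 21) (.D 2 (.L 48) (.L 20) (.L 17) (.L 25)) (.D 2 (.L 31) (.L 24) (.L 25) (.L 26))) (.L 12) (.L 15))) (.L 32) (.L 33) (.L 34))) (.L 35) (.L 36) (.L 37))) (.L 38) (.D 6 (.N 5 17 (.L 37) (.L 36) (.D 18 (.N 4 19 (.L 34) (.L 33) (.D 21 (.N 20 22 (.L 15) (.L 12) (.L 29) (.N 3 23 (.D 2 (.L 26) (.L 25) (.L 31) (.L 24)) (.D 2 (.L 25) (.L 17) (.L 30) (.L 20)) (.L 22) (.L 21))) (.N 20 22 (.L 12) (.L 15) (.L 27) (.L 49)) (.N 20 22 (.L 14) (.L 50) (.L 15) (.L 12)) (.N 20 22 (.N 3 23 (.D 2 (.L 26) (.L 25) (.L 51) (.L 24)) (.L 22) (.D 2 (.L 20) (.L 52) (.L 17) (.L 53)) (.L 21)) (.L 16) (.L 54) (.L 15))) (.L 32)) (.L 10) (.L 8) (.L 9)) (.L 35))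 (.L 55) (.L 5) (.L 6)) (.L 39)) (.L 56)) (.N 8 10 (.L 57) (.N 7 16 (.L 39) (.L 38) (.D 6 (.L 7) (.L 55) (.L 5) (.L 6)) (.D 6 (.L 40) (.L 45) (.L 6) (.L 5))) (.L 2) (.L 3)) (.N 8 10 (.L 58) (.N 7 16 (.L 39) (.L 38) (.D 6 (.N 5 17 (.L 37) (.L 36) (.D 18 (.N 4 19 (.L 34) (.L 33) (.D 21 (.N 20 22 (.L 15) (.L 12) (.L 29) (.N 3 23 (.D 2 (.L 26) (.L 25) (.L 31) (.L 24)) (.D 2 (.L 25) (.L 17) (.L 59) (.L 20)) (.L 22) (.L 21))) (.N 20 22 (.L 12) (.L 15) (.L 27) (.L 60)) (.N 20 22 (.L 61) (.L 62) (.L 11) (.L 12)) (.N 20 22 (.N 3 23 (.D 2 (.L 26) (.L 25) (.L 63) (.L 24)) (.L 22) (.D 2 (.L 20) (.L 64) (.L 17) (.L 65)) (.L 21)) (.L 16) (.L 29) (.L 15))) (.L 32)) (.L 10) (.L 66) (.L 9)) (.L 35)) (.L 55) (.L 5) (.L 6)) (.D 6 (.L 40) (.N 5 17 (.L 36) (.L 37) (.L 35) (.D 18 (.L 10) (.N 4 19 (.L 33) (.L 34) (.L 32) (.D 21 (.N 20 22 (.L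 15) (.L 12) (.L 41) (.L 27)) (.N 20 22 (.L 12) (.L 15) (.N 3 23 (.D 2 (.L 17) (.L 25) (.L 20) (.L 30)) (.D 2 (.L 25) (.L 26) (.L 24) (.L 31)) (.L 21) (.L 22)) (.L 29)) (.N 20 22 (.L 16) (.N 3 23 (.L 22) (.D 2 (.L 25) (.L 26) (.L 24) (.L 42)) (.L 21) (.D 2 (.L 43) (.L 20) (.L 25) (.L 26))) (.L 15) (.L 12)) (.N 20 22 (.L 44) (.L 14) (.L 12) (.L 15)))) (.L 9) (.L 8))) (.L 6) (.L 5))) (.L 3) (.L 2)))

/-- A part of the decision tree. -/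
def t1 : T :=
  (.D 9 (.N 8 10 (.L 2) (.L 3) (.N 7 16 (.D 6 (.L 5) (.L 6) (.N 5 17 (.D 18 (.L 8) (.L 9) (.N 4 19 (.D 21 (.N 20 22 (.L 11) (.L 12) (.L 14) (.L 13)) (.N 20 22 (.L 12) (.L 15) (.N 3 23 (.D 2 (.L 17) (.L 18) (.L 20) (.L 19)) (.L 21) (.D 2 (.L 23) (.L 24) (.L 26) (.L 25)) (.L 22)) (.L 16)) (.N 20 22 (.L 29) (.N 3 23 (.L 22) (.L 21) (.D 2 (.L 31) (.L 24) (.L 26) (.L 25)) (.D 2 (.L 30) (.L 20) (.L 25) (.L 17))) (.L 15) (.L 12)) (.N 20 22 (.L 27) (.L 28) (.L 12) (.L 15))) (.L 32) (.L 34) (.L 33)) (.L 10)) (.L 35) (.L 37) (.L 36)) (.L 7)) (.L 38) (.D 6 (.L 40) (.N 5 17 (.L 36) (.L 37) (.D 18 (.L 10) (.N 4 19 (.L 33) (.L 34) (.D 21 (.N 20 22 (.L 15) (.L 12) (.L 27) (.L 41)) (.N 20 22 (.L 12) (.L 15) (.L 29) (.N 3 23 (.D 2 (.L 17) (.L 25) (.L 30) (.L 20)) (.D 2 (.L 25) (.L 26) (.L 31) (.L 24)) (.L 22) (.L 21)))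 (.N 20 22 (.L 44) (.L 14) (.L 11) (.L 12)) (.N 20 22 (.L 16) (.N 3 23 (.L 22) (.D 2 (.L 25) (.L 26) (.L 42) (.L 24)) (.D 2 (.L 43) (.L 20) (.L 17) (.L 25)) (.L 21)) (.L 12) (.L 15))) (.L 32)) (.L 8) (.L 9)) (.L 35)) (.L 5) (.L 6)) (.L 39)) (.L 4)) (.N 8 10 (.L 3) (.L 2) (.L 56) (.N 7 16 (.D 6 (.L 5) (.L 6) (.N 5 17 (.D 18 (.L 46) (.L 9) (.N 4 19 (.D 21 (.N 20 22 (.L 11) (.L 12) (.L 47) (.L 13)) (.N 20 22 (.L 12) (.L 15) (.N 3 23 (.D 2 (.L 17) (.L 25) (.L 20) (.L 19)) (.L 21) (.D 2 (.L 23) (.L 24) (.L 26) (.L 25)) (.L 22)) (.L 16)) (.N 20 22 (.L 29) (.N 3 23 (.L 22) (.L 21) (.D 2 (.L 31) (.L 24) (.L 26) (.L 25)) (.D 2 (.L 48) (.L 20) (.L 25) (.L 17))) (.L 15) (.L 12)) (.N 20 22 (.L 27) (.L 28) (.L 12) (.L 15))) (.L 32) (.L 34) (.L 33)) (.L 10)) (.L 35) (.L 37) (.L 36)) (.L 45)) (.L 38) (.L 39) (.D 6 (.N 5 17 (.L 37)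 (.L 36) (.L 35) (.D 18 (.N 4 19 (.L 34) (.L 33) (.L 32) (.D 21 (.N 20 22 (.L 15) (.L 12) (.N 3 23 (.D 2 (.L 26) (.L 25) (.L 24) (.L 31)) (.D 2 (.L 25) (.L 17) (.L 20) (.L 30)) (.L 21) (.L 22)) (.L 29)) (.N 20 22 (.L 12) (.L 15) (.L 49) (.L 27)) (.N 20 22 (.N 3 23 (.D 2 (.L 26) (.L 25) (.L 24) (.L 51)) (.L 22) (.L 21) (.D 2 (.L 20) (.L 52) (.L 53) (.L 17))) (.L 16) (.L 15) (.L 54)) (.N 20 22 (.L 14) (.L 50) (.L 12) (.L 15)))) (.L 10) (.L 9) (.L 8))) (.L 55) (.L 6) (.L 5)))) (.N 8 10 (.L 58) (.N 7 16 (.L 39) (.L 38) (.D 6 (.L 40) (.N 5 17 (.L 36) (.L 37) (.D 18 (.L 10) (.N 4 19 (.L 33) (.L 34) (.D 21 (.N 20 22 (.L 15) (.L 12) (.L 27) (.L 41)) (.N 20 22 (.L 12) (.L 15) (.L 29) (.N 3 23 (.D 2 (.L 17) (.L 25) (.L 30) (.L 20)) (.D 2 (.L 25) (.L 26) (.L 31) (.L 24)) (.L 22) (.L 21))) (.N 20 22 (.L 44) (.L 14) (.L 15) (.L 12))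 (.N 20 22 (.L 16) (.N 3 23 (.L 22) (.D 2 (.L 25) (.L 26) (.L 42) (.L 24)) (.D 2 (.L 43) (.L 20) (.L 26) (.L 25)) (.L 21)) (.L 12) (.L 15))) (.L 32)) (.L 8) (.L 9)) (.L 35)) (.L 5) (.L 6)) (.D 6 (.N 5 17 (.L 37) (.L 36) (.L 35) (.D 18 (.N 4 19 (.L 34) (.L 33) (.L 32) (.D 21 (.N 20 22 (.L 15) (.L 12) (.N 3 23 (.D 2 (.L 26) (.L 25) (.L 24) (.L 31)) (.D 2 (.L 25) (.L 17) (.L 20) (.L 59)) (.L 21) (.L 22)) (.L 29)) (.N 20 22 (.L 12) (.L 15) (.L 60) (.L 27)) (.N 20 22 (.N 3 23 (.D 2 (.L 26) (.L 25) (.L 24) (.L 63)) (.L 22) (.L 21) (.D 2 (.L 20) (.L 64) (.L 65) (.L 17))) (.L 16) (.L 15) (.L 29)) (.N 20 22 (.L 61) (.L 62) (.L 12) (.L 11)))) (.L 10) (.L 9) (.L 66))) (.L 55) (.L 6) (.L 5))) (.L 2) (.L 3)) (.N 8 10 (.L 57) (.N 7 16 (.L 39) (.L 38) (.D 6 (.L 40) (.L 45) (.L 5) (.L 6)) (.D 6 (.L 7) (.L 55) (.L 6) (.L 5))) (.L 3)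 (.L 2)))

/-- A part of the decision tree. -/
def t2 : T :=
  (.D 9 (.N 8 10 (.L 2) (.L 3) (.N 7 16 (.L 38) (.D 6 (.L 6) (.L 5) (.L 45) (.N 5 17 (.L 35) (.D 18 (.L 9) (.L 46) (.L 10) (.N 4 19 (.L 32) (.D 21 (.N 20 22 (.L 15) (.L 12) (.L 16) (.N 3 23 (.L 21) (.D 2 (.L 25) (.L 17) (.L 19) (.L 20)) (.L 22) (.D 2 (.L 24) (.L 23) (.L 25) (.L 26)))) (.N 20 22 (.L 12) (.L 11) (.L 13) (.L 47)) (.N 20 22 (.L 28) (.L 27) (.L 15) (.L 12)) (.N 20 22 (.N 3 23 (.L 21) (.L 22) (.D 2 (.L 20) (.L 48) (.L 17) (.L 25)) (.D 2 (.L 24) (.L 31) (.L 25) (.L 26))) (.L 29) (.L 12) (.L 15))) (.L 33) (.L 34))) (.L 36) (.L 37))) (.D 6 (.L 55) (.N 5 17 (.L 36) (.L 37) (.D 18 (.L 10) (.N 4 19 (.L 33) (.L 34) (.D 21 (.N 20 22 (.L 15) (.L 12) (.L 27) (.L 49)) (.N 20 22 (.L 12) (.L 15) (.L 29) (.N 3 23 (.D 2 (.L 17) (.L 25) (.L 30) (.L 20)) (.D 2 (.L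 25) (.L 26) (.L 31) (.L 24)) (.L 22) (.L 21))) (.N 20 22 (.L 50) (.L 14) (.L 15) (.L 12)) (.N 20 22 (.L 16) (.N 3 23 (.L 22) (.D 2 (.L 25) (.L 26) (.L 51) (.L 24)) (.D 2 (.L 52) (.L 20) (.L 17) (.L 53)) (.L 21)) (.L 54) (.L 15))) (.L 32)) (.L 8) (.L 9)) (.L 35)) (.L 5) (.L 6)) (.L 39)) (.L 56)) (.N 8 10 (.L 3) (.L 2) (.L 4) (.N 7 16 (.L 38) (.D 6 (.L 6) (.L 5) (.L 7) (.N 5 17 (.L 35) (.D 18 (.L 9) (.L 8) (.L 10) (.N 4 19 (.L 32) (.D 21 (.N 20 22 (.L 15) (.L 12) (.L 16) (.N 3 23 (.L 21) (.D 2 (.L 18) (.L 17) (.L 19) (.L 20)) (.L 22) (.D 2 (.L 24) (.L 23) (.L 25) (.L 26)))) (.N 20 22 (.L 12) (.L 11) (.L 13) (.L 14)) (.N 20 22 (.L 28) (.L 27) (.L 15) (.L 12)) (.N 20 22 (.N 3 23 (.L 21) (.L 22) (.D 2 (.L 20) (.L 30) (.L 17) (.L 25)) (.D 2 (.L 24) (.L 31) (.L 25) (.L 26))) (.L 29) (.L 12) (.L 15))) (.L 33) (.L 34))) (.L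 36) (.L 37))) (.L 39) (.D 6 (.N 5 17 (.L 37) (.L 36) (.L 35) (.D 18 (.N 4 19 (.L 34) (.L 33) (.L 32) (.D 21 (.N 20 22 (.L 15) (.L 12) (.N 3 23 (.D 2 (.L 26) (.L 25) (.L 24) (.L 31)) (.D 2 (.L 25) (.L 17) (.L 20) (.L 30)) (.L 21) (.L 22)) (.L 29)) (.N 20 22 (.L 12) (.L 15) (.L 41) (.L 27)) (.N 20 22 (.N 3 23 (.D 2 (.L 26) (.L 25) (.L 24) (.L 42)) (.L 22) (.L 21) (.D 2 (.L 20) (.L 43) (.L 25) (.L 17))) (.L 16) (.L 15) (.L 12)) (.N 20 22 (.L 14) (.L 44) (.L 12) (.L 11)))) (.L 10) (.L 9) (.L 8))) (.L 40) (.L 6) (.L 5)))) (.N 8 10 (.N 7 16 (.L 38) (.L 39) (.D 6 (.L 55) (.L 7) (.L 5) (.L 6)) (.D 6 (.L 45) (.L 40) (.L 6) (.L 5))) (.L 57) (.L 2) (.L 3)) (.N 8 10 (.N 7 16 (.L 38) (.L 39) (.D 6 (.L 55) (.N 5 17 (.L 36) (.L 37) (.D 18 (.L 10) (.N 4 19 (.L 33) (.L 34) (.D 21 (.N 20 22 (.L 15) (.L 12) (.L 27) (.L 60)) (.N 20 22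 (.L 12) (.L 15) (.L 29) (.N 3 23 (.D 2 (.L 17) (.L 25) (.L 59) (.L 20)) (.D 2 (.L 25) (.L 26) (.L 31) (.L 24)) (.L 22) (.L 21))) (.N 20 22 (.L 62) (.L 61) (.L 11) (.L 12)) (.N 20 22 (.L 16) (.N 3 23 (.L 22) (.D 2 (.L 25) (.L 26) (.L 63) (.L 24)) (.D 2 (.L 64) (.L 20) (.L 17) (.L 65)) (.L 21)) (.L 29) (.L 15))) (.L 32)) (.L 66) (.L 9)) (.L 35)) (.L 5) (.L 6)) (.D 6 (.N 5 17 (.L 37) (.L 36) (.L 35) (.D 18 (.N 4 19 (.L 34) (.L 33) (.L 32) (.D 21 (.N 20 22 (.L 15) (.L 12) (.N 3 23 (.D 2 (.L 26) (.L 25) (.L 24) (.L 31)) (.D 2 (.L 25) (.L 17) (.L 20) (.L 30)) (.L 21) (.L 22)) (.L 29)) (.N 20 22 (.L 12) (.L 15) (.L 41) (.L 27)) (.N 20 22 (.N 3 23 (.D 2 (.L 26) (.L 25) (.L 24) (.L 42)) (.L 22) (.L 21) (.D 2 (.L 20) (.L 43) (.L 25) (.L 26))) (.L 16) (.L 15) (.L 12)) (.N 20 22 (.L 14) (.L 44) (.L 12) (.L 15)))) (.L 10) (.L 9)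 (.L 8))) (.L 40) (.L 6) (.L 5))) (.L 58) (.L 3) (.L 2)))

/-- A part of the decision tree. -/
def t3 : T :=
  (.D 9 (.N 8 10 (.L 2) (.L 3) (.L 56) (.N 7 16 (.L 38) (.D 6 (.L 6) (.L 5) (.N 5 17 (.L 35) (.D 18 (.L 9) (.L 46) (.N 4 19 (.L 32) (.D 21 (.N 20 22 (.L 15) (.L 12) (.N 3 23 (.L 21) (.D 2 (.L 25) (.L 17) (.L 20) (.L 19)) (.D 2 (.L 24) (.L 23) (.L 26) (.L 25)) (.L 22)) (.L 16)) (.N 20 22 (.L 12) (.L 11) (.L 47) (.L 13)) (.N 20 22 (.N 3 23 (.L 21) (.L 22) (.D 2 (.L 24) (.L 31) (.L 26) (.L 25)) (.D 2 (.L 20) (.L 48) (.L 25) (.L 17))) (.L 29) (.L 15) (.L 12)) (.N 20 22 (.L 28) (.L 27) (.L 12) (.L 15))) (.L 34) (.L 33)) (.L 10)) (.L 37) (.L 36)) (.L 45)) (.L 39) (.D 6 (.L 55) (.N 5 17 (.L 36) (.L 37) (.L 35) (.D 18 (.L 10) (.N 4 19 (.L 33) (.L 34) (.L 32) (.D 21 (.N 20 22 (.L 15) (.L 12) (.L 49) (.L 27)) (.N 20 22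 (.L 12) (.L 15) (.N 3 23 (.D 2 (.L 17) (.L 25) (.L 20) (.L 30)) (.D 2 (.L 25) (.L 26) (.L 24) (.L 31)) (.L 21) (.L 22)) (.L 29)) (.N 20 22 (.L 16) (.N 3 23 (.L 22) (.D 2 (.L 25) (.L 26) (.L 24) (.L 51)) (.L 21) (.D 2 (.L 52) (.L 20) (.L 53) (.L 17))) (.L 15) (.L 54)) (.N 20 22 (.L 50) (.L 14) (.L 12) (.L 15)))) (.L 9) (.L 8))) (.L 6) (.L 5)))) (.N 8 10 (.L 3) (.L 2) (.N 7 16 (.L 38) (.D 6 (.L 6) (.L 5) (.N 5 17 (.L 35) (.D 18 (.L 9) (.L 8) (.N 4 19 (.L 32) (.D 21 (.N 20 22 (.L 15) (.L 12) (.N 3 23 (.L 21) (.D 2 (.L 18) (.L 17) (.L 20) (.L 19)) (.D 2 (.L 24) (.L 23) (.L 26) (.L 25)) (.L 22)) (.L 16)) (.N 20 22 (.L 12) (.L 11) (.L 14) (.L 13)) (.N 20 22 (.N 3 23 (.L 21) (.L 22) (.D 2 (.L 24) (.L 31) (.L 26) (.L 25)) (.D 2 (.L 20) (.L 30) (.L 25) (.L 17))) (.L 29) (.L 15) (.L 12)) (.N 20 22 (.L 28) (.L 27) (.L 12) (.L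 15))) (.L 34) (.L 33)) (.L 10)) (.L 37) (.L 36)) (.L 7)) (.D 6 (.N 5 17 (.L 37) (.L 36) (.D 18 (.N 4 19 (.L 34) (.L 33) (.D 21 (.N 20 22 (.L 15) (.L 12) (.L 29) (.N 3 23 (.D 2 (.L 26) (.L 25) (.L 31) (.L 24)) (.D 2 (.L 25) (.L 17) (.L 30) (.L 20)) (.L 22) (.L 21))) (.N 20 22 (.L 12) (.L 15) (.L 27) (.L 41)) (.N 20 22 (.L 14) (.L 44) (.L 11) (.L 12)) (.N 20 22 (.N 3 23 (.D 2 (.L 26) (.L 25) (.L 42) (.L 24)) (.L 22) (.D 2 (.L 20) (.L 43) (.L 17) (.L 25)) (.L 21)) (.L 16) (.L 12) (.L 15))) (.L 32)) (.L 10) (.L 8) (.L 9)) (.L 35)) (.L 40) (.L 5) (.L 6)) (.L 39)) (.L 4)) (.N 8 10 (.N 7 16 (.L 38) (.L 39) (.D 6 (.N 5 17 (.L 37) (.L 36) (.D 18 (.N 4 19 (.L 34) (.L 33) (.D 21 (.N 20 22 (.L 15) (.L 12) (.L 29) (.N 3 23 (.D 2 (.L 26) (.L 25) (.L 31) (.L 24)) (.D 2 (.L 25) (.L 17) (.L 30) (.L 20)) (.L 22) (.L 21))) (.N 20 22 (.L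 12) (.L 15) (.L 27) (.L 41)) (.N 20 22 (.L 14) (.L 44) (.L 15) (.L 12)) (.N 20 22 (.N 3 23 (.D 2 (.L 26) (.L 25) (.L 42) (.L 24)) (.L 22) (.D 2 (.L 20) (.L 43) (.L 26) (.L 25)) (.L 21)) (.L 16) (.L 12) (.L 15))) (.L 32)) (.L 10) (.L 8) (.L 9)) (.L 35)) (.L 40) (.L 5) (.L 6)) (.D 6 (.L 55) (.N 5 17 (.L 36) (.L 37) (.L 35) (.D 18 (.L 10) (.N 4 19 (.L 33) (.L 34) (.L 32) (.D 21 (.N 20 22 (.L 15) (.L 12) (.L 60) (.L 27)) (.N 20 22 (.L 12) (.L 15) (.N 3 23 (.D 2 (.L 17) (.L 25) (.L 20) (.L 59)) (.D 2 (.L 25) (.L 26) (.L 24) (.L 31)) (.L 21) (.L 22)) (.L 29)) (.N 20 22 (.L 16) (.N 3 23 (.L 22) (.D 2 (.L 25) (.L 26) (.L 24) (.L 63)) (.L 21) (.D 2 (.L 64) (.L 20) (.L 65) (.L 17))) (.L 15) (.L 29)) (.N 20 22 (.L 62) (.L 61) (.L 12) (.L 11)))) (.L 9) (.L 66))) (.L 6) (.L 5))) (.L 58) (.L 2) (.L 3)) (.N 8 10 (.N 7 16 (.L 38) (.L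 39) (.D 6 (.L 45) (.L 40) (.L 5) (.L 6)) (.D 6 (.L 55) (.L 7) (.L 6) (.L 5))) (.L 57) (.L 3) (.L 2)))

/-- A part of the decision tree. -/
def t4 : T :=
  (.D 9 (.N 8 10 (.L 2) (.L 3) (.L 57) (.N 7 16 (.D 6 (.L 5) (.L 6) (.L 7) (.L 55)) (.D 6 (.L 6) (.L 5) (.L 40) (.L 45)) (.L 39) (.L 38))) (.N 8 10 (.L 3) (.L 2) (.L 58) (.N 7 16 (.D 6 (.L 5) (.L 6) (.N 5 17 (.D 18 (.L 66) (.L 9) (.N 4 19 (.D 21 (.N 20 22 (.L 11) (.L 12) (.L 61) (.L 62)) (.N 20 22 (.L 29) (.L 15) (.N 3 23 (.D 2 (.L 17) (.L 65) (.L 20) (.L 64)) (.L 21) (.D 2 (.L 63) (.L 24) (.L 26) (.L 25)) (.L 22)) (.L 16)) (.N 20 22 (.L 29) (.N 3 23 (.L 22) (.L 21) (.D 2 (.L 31) (.L 24) (.L 26) (.L 25)) (.D 2 (.L 59) (.L 20) (.L 25) (.L 17))) (.L 15) (.L 12)) (.N 20 22 (.L 27) (.L 60) (.L 12) (.L 15))) (.L 32) (.L 34) (.L 33)) (.L 10)) (.L 35) (.L 37) (.L 36)) (.L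 55)) (.D 6 (.L 6) (.L 5) (.L 40) (.N 5 17 (.L 35) (.D 18 (.L 9) (.L 8) (.L 10) (.N 4 19 (.L 32) (.D 21 (.N 20 22 (.L 15) (.L 12) (.L 16) (.N 3 23 (.L 21) (.D 2 (.L 25) (.L 26) (.L 43) (.L 20)) (.L 22) (.D 2 (.L 24) (.L 42) (.L 25) (.L 26)))) (.N 20 22 (.L 12) (.L 15) (.L 44) (.L 14)) (.N 20 22 (.L 41) (.L 27) (.L 15) (.L 12)) (.N 20 22 (.N 3 23 (.L 21) (.L 22) (.D 2 (.L 20) (.L 30) (.L 17) (.L 25)) (.D 2 (.L 24) (.L 31) (.L 25) (.L 26))) (.L 29) (.L 12) (.L 15))) (.L 33) (.L 34))) (.L 36) (.L 37))) (.L 39) (.L 38))) (.N 8 10 (.L 4) (.N 7 16 (.L 39) (.D 6 (.L 6) (.L 5) (.L 40) (.N 5 17 (.L 35) (.D 18 (.L 9) (.L 8) (.L 10) (.N 4 19 (.L 32) (.D 21 (.N 20 22 (.L 15) (.L 12) (.L 16) (.N 3 23 (.L 21) (.D 2 (.L 25) (.L 17) (.L 43) (.L 20)) (.L 22) (.D 2 (.L 24) (.L 42) (.L 25) (.L 26)))) (.N 20 22 (.L 12) (.L 11) (.L 44) (.L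 14)) (.N 20 22 (.L 41) (.L 27) (.L 15) (.L 12)) (.N 20 22 (.N 3 23 (.L 21) (.L 22) (.D 2 (.L 20) (.L 30) (.L 17) (.L 25)) (.D 2 (.L 24) (.L 31) (.L 25) (.L 26))) (.L 29) (.L 12) (.L 15))) (.L 33) (.L 34))) (.L 36) (.L 37))) (.D 6 (.L 7) (.N 5 17 (.L 36) (.L 37) (.D 18 (.L 10) (.N 4 19 (.L 33) (.L 34) (.D 21 (.N 20 22 (.L 15) (.L 12) (.L 27) (.L 28)) (.N 20 22 (.L 12) (.L 15) (.L 29) (.N 3 23 (.D 2 (.L 17) (.L 25) (.L 30) (.L 20)) (.D 2 (.L 25) (.L 26) (.L 31) (.L 24)) (.L 22) (.L 21))) (.N 20 22 (.L 13) (.L 14) (.L 11) (.L 12)) (.N 20 22 (.L 16) (.N 3 23 (.L 22) (.D 2 (.L 25) (.L 26) (.L 23) (.L 24)) (.D 2 (.L 19) (.L 20) (.L 17) (.L 18)) (.L 21)) (.L 12) (.L 15))) (.L 32)) (.L 8) (.L 9)) (.L 35)) (.L 5) (.L 6)) (.L 38)) (.L 2) (.L 3)) (.N 8 10 (.N 7 16 (.D 6 (.L 5) (.L 6) (.N 5 17 (.D 18 (.L 8) (.L 9) (.N 4 19 (.D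 21 (.N 20 22 (.L 15) (.L 12) (.L 14) (.L 50)) (.N 20 22 (.L 54) (.L 15) (.N 3 23 (.D 2 (.L 17) (.L 53) (.L 20) (.L 52)) (.L 21) (.D 2 (.L 51) (.L 24) (.L 26) (.L 25)) (.L 22)) (.L 16)) (.N 20 22 (.L 29) (.N 3 23 (.L 22) (.L 21) (.D 2 (.L 31) (.L 24) (.L 26) (.L 25)) (.D 2 (.L 30) (.L 20) (.L 25) (.L 17))) (.L 15) (.L 12)) (.N 20 22 (.L 27) (.L 49) (.L 12) (.L 15))) (.L 32) (.L 34) (.L 33)) (.L 10)) (.L 35) (.L 37) (.L 36)) (.L 55)) (.L 39) (.D 6 (.L 45) (.N 5 17 (.L 36) (.L 37) (.D 18 (.L 10) (.N 4 19 (.L 33) (.L 34) (.D 21 (.N 20 22 (.L 15) (.L 12) (.L 27) (.L 28)) (.N 20 22 (.L 12) (.L 15) (.L 29) (.N 3 23 (.D 2 (.L 17) (.L 25) (.L 48) (.L 20)) (.D 2 (.L 25) (.L 26) (.L 31) (.L 24)) (.L 22) (.L 21))) (.N 20 22 (.L 13) (.L 47) (.L 11) (.L 12)) (.N 20 22 (.L 16) (.N 3 23 (.L 22) (.D 2 (.L 25) (.L 26) (.L 23) (.L 24))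 (.D 2 (.L 19) (.L 20) (.L 17) (.L 25)) (.L 21)) (.L 12) (.L 15))) (.L 32)) (.L 46) (.L 9)) (.L 35)) (.L 5) (.L 6)) (.L 38)) (.L 56) (.L 3) (.L 2)))

/-- A part of the decision tree. -/
def t5 : T :=
  (.D 9 (.N 8 10 (.L 2) (.L 3) (.L 58) (.N 7 16 (.D 6 (.L 5) (.L 6) (.L 40) (.N 5 17 (.D 18 (.L 8) (.L 9) (.L 10) (.N 4 19 (.D 21 (.N 20 22 (.L 15) (.L 12) (.L 44) (.L 14)) (.N 20 22 (.L 12) (.L 15) (.L 16) (.N 3 23 (.D 2 (.L 26) (.L 25) (.L 43) (.L 20)) (.L 21) (.L 22) (.D 2 (.L 42) (.L 24) (.L 25) (.L 26)))) (.N 20 22 (.L 27) (.L 41) (.L 15) (.L 12)) (.N 20 22 (.L 29) (.N 3 23 (.L 22) (.L 21) (.D 2 (.L 30) (.L 20) (.L 17) (.L 25)) (.D 2 (.L 31) (.L 24) (.L 25) (.L 26))) (.L 12) (.L 15))) (.L 32) (.L 33) (.L 34))) (.L 35) (.L 36) (.L 37))) (.D 6 (.L 6) (.L 5) (.N 5 17 (.L 35) (.D 18 (.L 9) (.L 66) (.N 4 19 (.L 32) (.D 21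 (.N 20 22 (.L 15) (.L 29) (.N 3 23 (.L 21) (.D 2 (.L 65) (.L 17) (.L 20) (.L 64)) (.D 2 (.L 24) (.L 63) (.L 26) (.L 25)) (.L 22)) (.L 16)) (.N 20 22 (.L 12) (.L 11) (.L 61) (.L 62)) (.N 20 22 (.N 3 23 (.L 21) (.L 22) (.D 2 (.L 24) (.L 31) (.L 26) (.L 25)) (.D 2 (.L 20) (.L 59) (.L 25) (.L 17))) (.L 29) (.L 15) (.L 12)) (.N 20 22 (.L 60) (.L 27) (.L 12) (.L 15))) (.L 34) (.L 33)) (.L 10)) (.L 37) (.L 36)) (.L 55)) (.L 39) (.L 38))) (.N 8 10 (.L 3) (.L 2) (.L 57) (.N 7 16 (.D 6 (.L 5) (.L 6) (.L 40) (.L 45)) (.D 6 (.L 6) (.L 5) (.L 7) (.L 55)) (.L 39) (.L 38))) (.N 8 10 (.N 7 16 (.D 6 (.L 5) (.L 6) (.L 40) (.N 5 17 (.D 18 (.L 8) (.L 9) (.L 10) (.N 4 19 (.D 21 (.N 20 22 (.L 11) (.L 12) (.L 44) (.L 14)) (.N 20 22 (.L 12) (.L 15) (.L 16) (.N 3 23 (.D 2 (.L 17) (.L 25) (.L 43) (.L 20)) (.L 21) (.L 22) (.D 2 (.L 42) (.L 24)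 (.L 25) (.L 26)))) (.N 20 22 (.L 27) (.L 41) (.L 15) (.L 12)) (.N 20 22 (.L 29) (.N 3 23 (.L 22) (.L 21) (.D 2 (.L 30) (.L 20) (.L 17) (.L 25)) (.D 2 (.L 31) (.L 24) (.L 25) (.L 26))) (.L 12) (.L 15))) (.L 32) (.L 33) (.L 34))) (.L 35) (.L 36) (.L 37))) (.L 39) (.D 6 (.N 5 17 (.L 37) (.L 36) (.D 18 (.N 4 19 (.L 34) (.L 33) (.D 21 (.N 20 22 (.L 15) (.L 12) (.L 29) (.N 3 23 (.D 2 (.L 26) (.L 25) (.L 31) (.L 24)) (.D 2 (.L 25) (.L 17) (.L 30) (.L 20)) (.L 22) (.L 21))) (.N 20 22 (.L 12) (.L 15) (.L 27) (.L 28)) (.N 20 22 (.L 14) (.L 13) (.L 11) (.L 12)) (.N 20 22 (.N 3 23 (.D 2 (.L 26) (.L 25) (.L 23) (.L 24)) (.L 22) (.D 2 (.L 20) (.L 19) (.L 17) (.L 18)) (.L 21)) (.L 16) (.L 12) (.L 15))) (.L 32)) (.L 10) (.L 8) (.L 9)) (.L 35)) (.L 7) (.L 5) (.L 6)) (.L 38)) (.L 4) (.L 2) (.L 3)) (.N 8 10 (.L 56) (.N 7 16 (.L 39) (.D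 6 (.L 6) (.L 5) (.N 5 17 (.L 35) (.D 18 (.L 9) (.L 8) (.N 4 19 (.L 32) (.D 21 (.N 20 22 (.L 15) (.L 54) (.N 3 23 (.L 21) (.D 2 (.L 53) (.L 17) (.L 20) (.L 52)) (.D 2 (.L 24) (.L 51) (.L 26) (.L 25)) (.L 22)) (.L 16)) (.N 20 22 (.L 12) (.L 15) (.L 14) (.L 50)) (.N 20 22 (.N 3 23 (.L 21) (.L 22) (.D 2 (.L 24) (.L 31) (.L 26) (.L 25)) (.D 2 (.L 20) (.L 30) (.L 25) (.L 17))) (.L 29) (.L 15) (.L 12)) (.N 20 22 (.L 49) (.L 27) (.L 12) (.L 15))) (.L 34) (.L 33)) (.L 10)) (.L 37) (.L 36)) (.L 55)) (.D 6 (.N 5 17 (.L 37) (.L 36) (.D 18 (.N 4 19 (.L 34) (.L 33) (.D 21 (.N 20 22 (.L 15) (.L 12) (.L 29) (.N 3 23 (.D 2 (.L 26) (.L 25) (.L 31) (.L 24)) (.D 2 (.L 25) (.L 17) (.L 48) (.L 20)) (.L 22) (.L 21))) (.N 20 22 (.L 12) (.L 15) (.L 27) (.L 28)) (.N 20 22 (.L 47) (.L 13) (.L 11) (.L 12)) (.N 20 22 (.N 3 23 (.D 2 (.L 26) (.L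 25) (.L 23) (.L 24)) (.L 22) (.D 2 (.L 20) (.L 19) (.L 17) (.L 25)) (.L 21)) (.L 16) (.L 12) (.L 15))) (.L 32)) (.L 10) (.L 46) (.L 9)) (.L 35)) (.L 45) (.L 5) (.L 6)) (.L 38)) (.L 3) (.L 2)))

/-- A part of the decision tree. -/
def t6 : T :=
  (.D 9 (.N 8 10 (.L 2) (.L 3) (.N 7 16 (.D 6 (.L 5) (.L 6) (.L 55) (.L 7)) (.D 6 (.L 6) (.L 5) (.L 45) (.L 40)) (.L 38) (.L 39)) (.L 57)) (.N 8 10 (.L 3) (.L 2) (.N 7 16 (.D 6 (.L 5) (.L 6) (.L 55) (.N 5 17 (.D 18 (.L 66) (.L 9) (.L 10) (.N 4 19 (.D 21 (.N 20 22 (.L 11) (.L 12) (.L 62) (.L 61)) (.N 20 22 (.L 29) (.L 15) (.L 16) (.N 3 23 (.D 2 (.L 17) (.L 65) (.L 64) (.L 20)) (.L 21) (.L 22) (.D 2 (.L 63) (.L 24) (.L 25) (.L 26)))) (.N 20 22 (.L 27) (.L 60) (.L 15) (.L 12)) (.N 20 22 (.L 29) (.N 3 23 (.L 22) (.L 21) (.D 2 (.L 59) (.L 20) (.L 17) (.L 25)) (.D 2 (.L 31) (.L 24)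 (.L 25) (.L 26))) (.L 12) (.L 15))) (.L 32) (.L 33) (.L 34))) (.L 35) (.L 36) (.L 37))) (.D 6 (.L 6) (.L 5) (.N 5 17 (.L 35) (.D 18 (.L 9) (.L 8) (.N 4 19 (.L 32) (.D 21 (.N 20 22 (.L 15) (.L 12) (.N 3 23 (.L 21) (.D 2 (.L 25) (.L 26) (.L 20) (.L 43)) (.D 2 (.L 24) (.L 42) (.L 26) (.L 25)) (.L 22)) (.L 16)) (.N 20 22 (.L 12) (.L 15) (.L 14) (.L 44)) (.N 20 22 (.N 3 23 (.L 21) (.L 22) (.D 2 (.L 24) (.L 31) (.L 26) (.L 25)) (.D 2 (.L 20) (.L 30) (.L 25) (.L 17))) (.L 29) (.L 15) (.L 12)) (.N 20 22 (.L 41) (.L 27) (.L 12) (.L 15))) (.L 34) (.L 33)) (.L 10)) (.L 37) (.L 36)) (.L 40)) (.L 38) (.L 39)) (.L 58)) (.N 8 10 (.N 7 16 (.D 6 (.L 5) (.L 6) (.L 55) (.N 5 17 (.D 18 (.L 8) (.L 9) (.L 10) (.N 4 19 (.D 21 (.N 20 22 (.L 15) (.L 12) (.L 50) (.L 14)) (.N 20 22 (.L 54) (.L 15) (.L 16) (.N 3 23 (.D 2 (.L 17) (.L 53) (.L 52)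 (.L 20)) (.L 21) (.L 22) (.D 2 (.L 51) (.L 24) (.L 25) (.L 26)))) (.N 20 22 (.L 27) (.L 49) (.L 15) (.L 12)) (.N 20 22 (.L 29) (.N 3 23 (.L 22) (.L 21) (.D 2 (.L 30) (.L 20) (.L 17) (.L 25)) (.D 2 (.L 31) (.L 24) (.L 25) (.L 26))) (.L 12) (.L 15))) (.L 32) (.L 33) (.L 34))) (.L 35) (.L 36) (.L 37))) (.L 39) (.L 38) (.D 6 (.L 45) (.N 5 17 (.L 36) (.L 37) (.L 35) (.D 18 (.L 10) (.N 4 19 (.L 33) (.L 34) (.L 32) (.D 21 (.N 20 22 (.L 15) (.L 12) (.L 28) (.L 27)) (.N 20 22 (.L 12) (.L 15) (.N 3 23 (.D 2 (.L 17) (.L 25) (.L 20) (.L 48)) (.D 2 (.L 25) (.L 26) (.L 24) (.L 31)) (.L 21) (.L 22)) (.L 29)) (.N 20 22 (.L 16) (.N 3 23 (.L 22) (.D 2 (.L 25) (.L 26) (.L 24) (.L 23)) (.L 21) (.D 2 (.L 19) (.L 20) (.L 25) (.L 17))) (.L 15) (.L 12)) (.N 20 22 (.L 13) (.L 47) (.L 12) (.L 11)))) (.L 9) (.L 46))) (.L 6) (.L 5))) (.L 56) (.L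 2) (.L 3)) (.N 8 10 (.L 4) (.N 7 16 (.L 39) (.D 6 (.L 6) (.L 5) (.N 5 17 (.L 35) (.D 18 (.L 9) (.L 8) (.N 4 19 (.L 32) (.D 21 (.N 20 22 (.L 15) (.L 12) (.N 3 23 (.L 21) (.D 2 (.L 25) (.L 17) (.L 20) (.L 43)) (.D 2 (.L 24) (.L 42) (.L 26) (.L 25)) (.L 22)) (.L 16)) (.N 20 22 (.L 12) (.L 11) (.L 14) (.L 44)) (.N 20 22 (.N 3 23 (.L 21) (.L 22) (.D 2 (.L 24) (.L 31) (.L 26) (.L 25)) (.D 2 (.L 20) (.L 30) (.L 25) (.L 17))) (.L 29) (.L 15) (.L 12)) (.N 20 22 (.L 41) (.L 27) (.L 12) (.L 15))) (.L 34) (.L 33)) (.L 10)) (.L 37) (.L 36)) (.L 40)) (.L 38) (.D 6 (.L 7) (.N 5 17 (.L 36) (.L 37) (.L 35) (.D 18 (.L 10) (.N 4 19 (.L 33) (.L 34) (.L 32) (.D 21 (.N 20 22 (.L 15) (.L 12) (.L 28) (.L 27)) (.N 20 22 (.L 12) (.L 15) (.N 3 23 (.D 2 (.L 17) (.L 25) (.L 20) (.L 30)) (.D 2 (.L 25) (.L 26) (.L 24) (.L 31)) (.L 21) (.L 22)) (.L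 29)) (.N 20 22 (.L 16) (.N 3 23 (.L 22) (.D 2 (.L 25) (.L 26) (.L 24) (.L 23)) (.L 21) (.D 2 (.L 19) (.L 20) (.L 18) (.L 17))) (.L 15) (.L 12)) (.N 20 22 (.L 13) (.L 14) (.L 12) (.L 11)))) (.L 9) (.L 8))) (.L 6) (.L 5))) (.L 3) (.L 2)))

/-- A part of the decision tree. -/
def t7 : T :=
  (.D 9 (.N 8 10 (.L 2) (.L 3) (.N 7 16 (.D 6 (.L 5) (.L 6) (.N 5 17 (.D 18 (.L 8) (.L 9) (.N 4 19 (.D 21 (.N 20 22 (.L 15) (.L 12) (.L 14) (.L 44)) (.N 20 22 (.L 12) (.L 15) (.N 3 23 (.D 2 (.L 26) (.L 25) (.L 20) (.L 43)) (.L 21) (.D 2 (.L 42) (.L 24) (.L 26) (.L 25)) (.L 22)) (.L 16)) (.N 20 22 (.L 29) (.N 3 23 (.L 22) (.L 21) (.D 2 (.L 31) (.L 24) (.L 26) (.L 25)) (.D 2 (.L 30) (.L 20) (.L 25) (.L 17))) (.L 15) (.L 12)) (.N 20 22 (.L 27) (.L 41) (.L 12) (.L 15))) (.L 32) (.L 34) (.L 33)) (.L 10)) (.L 35) (.L 37) (.L 36)) (.L 40))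 (.D 6 (.L 6) (.L 5) (.L 55) (.N 5 17 (.L 35) (.D 18 (.L 9) (.L 66) (.L 10) (.N 4 19 (.L 32) (.D 21 (.N 20 22 (.L 15) (.L 29) (.L 16) (.N 3 23 (.L 21) (.D 2 (.L 65) (.L 17) (.L 64) (.L 20)) (.L 22) (.D 2 (.L 24) (.L 63) (.L 25) (.L 26)))) (.N 20 22 (.L 12) (.L 11) (.L 62) (.L 61)) (.N 20 22 (.L 60) (.L 27) (.L 15) (.L 12)) (.N 20 22 (.N 3 23 (.L 21) (.L 22) (.D 2 (.L 20) (.L 59) (.L 17) (.L 25)) (.D 2 (.L 24) (.L 31) (.L 25) (.L 26))) (.L 29) (.L 12) (.L 15))) (.L 33) (.L 34))) (.L 36) (.L 37))) (.L 38) (.L 39)) (.L 58)) (.N 8 10 (.L 3) (.L 2) (.N 7 16 (.D 6 (.L 5) (.L 6) (.L 45) (.L 40)) (.D 6 (.L 6) (.L 5) (.L 55) (.L 7)) (.L 38) (.L 39)) (.L 57)) (.N 8 10 (.L 56) (.N 7 16 (.L 39) (.D 6 (.L 6) (.L 5) (.L 55) (.N 5 17 (.L 35) (.D 18 (.L 9) (.L 8) (.L 10) (.N 4 19 (.L 32) (.D 21 (.N 20 22 (.L 15) (.L 54) (.L 16) (.N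 3 23 (.L 21) (.D 2 (.L 53) (.L 17) (.L 52) (.L 20)) (.L 22) (.D 2 (.L 24) (.L 51) (.L 25) (.L 26)))) (.N 20 22 (.L 12) (.L 15) (.L 50) (.L 14)) (.N 20 22 (.L 49) (.L 27) (.L 15) (.L 12)) (.N 20 22 (.N 3 23 (.L 21) (.L 22) (.D 2 (.L 20) (.L 30) (.L 17) (.L 25)) (.D 2 (.L 24) (.L 31) (.L 25) (.L 26))) (.L 29) (.L 12) (.L 15))) (.L 33) (.L 34))) (.L 36) (.L 37))) (.L 38) (.D 6 (.N 5 17 (.L 37) (.L 36) (.L 35) (.D 18 (.N 4 19 (.L 34) (.L 33) (.L 32) (.D 21 (.N 20 22 (.L 15) (.L 12) (.N 3 23 (.D 2 (.L 26) (.L 25) (.L 24) (.L 31)) (.D 2 (.L 25) (.L 17) (.L 20) (.L 48)) (.L 21) (.L 22)) (.L 29)) (.N 20 22 (.L 12) (.L 15) (.L 28) (.L 27)) (.N 20 22 (.N 3 23 (.D 2 (.L 26) (.L 25) (.L 24) (.L 23)) (.L 22) (.L 21) (.D 2 (.L 20) (.L 19) (.L 25) (.L 17))) (.L 16) (.L 15) (.L 12)) (.N 20 22 (.L 47) (.L 13) (.L 12) (.L 11)))) (.L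 10) (.L 9) (.L 46))) (.L 45) (.L 6) (.L 5))) (.L 2) (.L 3)) (.N 8 10 (.N 7 16 (.D 6 (.L 5) (.L 6) (.N 5 17 (.D 18 (.L 8) (.L 9) (.N 4 19 (.D 21 (.N 20 22 (.L 11) (.L 12) (.L 14) (.L 44)) (.N 20 22 (.L 12) (.L 15) (.N 3 23 (.D 2 (.L 17) (.L 25) (.L 20) (.L 43)) (.L 21) (.D 2 (.L 42) (.L 24) (.L 26) (.L 25)) (.L 22)) (.L 16)) (.N 20 22 (.L 29) (.N 3 23 (.L 22) (.L 21) (.D 2 (.L 31) (.L 24) (.L 26) (.L 25)) (.D 2 (.L 30) (.L 20) (.L 25) (.L 17))) (.L 15) (.L 12)) (.N 20 22 (.L 27) (.L 41) (.L 12) (.L 15))) (.L 32) (.L 34) (.L 33)) (.L 10)) (.L 35) (.L 37) (.L 36)) (.L 40)) (.L 39) (.L 38) (.D 6 (.N 5 17 (.L 37) (.L 36) (.L 35) (.D 18 (.N 4 19 (.L 34) (.L 33) (.L 32) (.D 21 (.N 20 22 (.L 15) (.L 12) (.N 3 23 (.D 2 (.L 26) (.L 25) (.L 24) (.L 31)) (.D 2 (.L 25) (.L 17) (.L 20) (.L 30)) (.L 21) (.L 22)) (.L 29)) (.N 20 22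 (.L 12) (.L 15) (.L 28) (.L 27)) (.N 20 22 (.N 3 23 (.D 2 (.L 26) (.L 25) (.L 24) (.L 23)) (.L 22) (.L 21) (.D 2 (.L 20) (.L 19) (.L 18) (.L 17))) (.L 16) (.L 15) (.L 12)) (.N 20 22 (.L 14) (.L 13) (.L 12) (.L 11)))) (.L 10) (.L 9) (.L 8))) (.L 7) (.L 6) (.L 5))) (.L 4) (.L 3) (.L 2)))

/-- The decision tree. -/
def top : T := (.N 12 13 (.D 14 (.L 0) (.L 1) (.N 11 15 t0 (.L 67) (.L 68) (.L 69)) (.N 11 15 t1 (.L 67) (.L 69) (.L 68))) (.D 14 (.L 1) (.L 0) (.N 11 15 (.L 67) t2 (.L 68) (.L 69)) (.N 11 15 (.L 67) t3 (.L 69) (.L 68))) (.D 14 (.N 11 15 (.L 68) (.L 69) t4 (.L 67)) (.N 11 15 (.L 69) (.L 68) t5 (.L 67)) (.L 0) (.L 1)) (.D 14 (.N 11 15 (.L 68) (.L 69) (.L 67) t6) (.N 11 15 (.L 69) (.L 68) (.L 67) t7) (.L 1) (.L 0)))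

theorem pairs_iff (x y : Base) : Pairs x y ↔ okp (code x) (code y) = true := by
  cases x <;> cases y <;> simp [Pairs, okp, code]

theorem code_cases (x : Base) : code x = 0 ∨ code x = 1 ∨ code x = 2 ∨ code x = 3 := by
  cases x <;> simp [code]

/-- `e` agrees with the codes of `S` wherever it is defined (value `≠ 4`). -/
def Ext (e : ℕ → ℕ) (S : ℕ → Base) : Prop := ∀ p, e p = 4 ∨ e p = code (S p)

theorem Ext.upd {e : ℕ → ℕ} {S : ℕ → Base} (h : Ext e S) {v c : ℕ} (hc : code (S v) = c) :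
    Ext (upd e v c) S := by
  intro p
  unfold NonDesignable.upd
  by_cases hp : p = v
  · subst hp; right; simp [hc]
  · have : (p == v) = false := by simpa using hp
    rw [this]; simpa using h p

theorem chk_sound (al : List (List (ℕ × ℕ))) (S : ℕ → Base)
    (hS : ∀ q ∈ RL, Pairs (S q.1) (S q.2)) :
    ∀ (t : T) (e : ℕ → ℕ), Ext e S → chk al t e = true →
      ∃ l ∈ al, ∀ q ∈ l, Pairs (S q.1) (S q.2) := by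
  intro t
  induction t with
  | L i =>
    intro e he h
    unfold chk at h
    split at h
    · simp at h
    · rename_i l hl
      refine ⟨l, List.mem_of_getElem? hl, fun q hq => ?_⟩
      rw [List.all_eq_true] at h
      have h1 := h q hq
      rw [Bool.or_eq_true] at h1
      rcases h1 with h1 | h1
      · exact hS q (by simpa using h1)
      · rw [pairs_iff]
        rcases he q.1 with ha | ha
        · rw [ha] at h1; simp [okp] at h1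
        · rcases he q.2 with hb | hb
          · rw [hb] at h1; simp [okp] at h1
          · rw [← ha, ← hb]; exact h1
  | N v m t0 t1 t2 t3 i0 i1 i2 i3 =>
    intro e he h
    unfold chk at h
    simp only [Bool.and_eq_true] at h
    obtain ⟨hm, h0, h1, h2, h3⟩ := h
    have hp : okp (code (S v)) (code (S m)) = true :=
      (pairs_iff _ _).1 (hS (v, m) (by simpa using hm))
    rcases code_cases (S v) with hv | hv | hv | hv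
    · have hm' : code (S m) = 1 := by
        rcases code_cases (S m) with hw | hw | hw | hw <;> rw [hv, hw] at hp <;>
          first | exact hw | (simp [okp] at hp)
      exact i0 _ ((he.upd hv).upd hm') h0
    · have hm' : code (S m) = 0 := by
        rcases code_cases (S m) with hw | hw | hw | hw <;> rw [hv, hw] at hp <;>
          first | exact hw | (simp [okp] at hp)
      exact i1 _ ((he.upd hv).upd hm') h1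
    · have hm' : code (S m) = 3 := by
        rcases code_cases (S m) with hw | hw | hw | hw <;> rw [hv, hw] at hp <;>
          first | exact hw | (simp [okp] at hp)
      exact i2 _ ((he.upd hv).upd hm') h2
    · have hm' : code (S m) = 2 := by
        rcases code_cases (S m) with hw | hw | hw | hw <;> rw [hv, hw] at hp <;>
          first | exact hw | (simp [okp] at hp)
      exact i3 _ ((he.upd hv).upd hm') h3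
  | D v t0 t1 t2 t3 i0 i1 i2 i3 =>
    intro e he h
    unfold chk at h
    simp only [Bool.and_eq_true] at h
    obtain ⟨h0, h1, h2, h3⟩ := h
    rcases code_cases (S v) with hv | hv | hv | hv
    · exact i0 _ (he.upd hv) h0
    · exact i1 _ (he.upd hv) h1
    · exact i2 _ (he.upd hv) h2
    · exact i3 _ (he.upd hv) h3

instance (n : ℕ) (R : Finset (ℕ × ℕ)) : Decidable (IsSecondary n R) := by
  unfold IsSecondary; infer_instance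

instance (n : ℕ) (R : Finset (ℕ × ℕ)) : Decidable (Binary n R) := by
  unfold Binary; infer_instance

theorem chk_top : chk alts top (fun _ => 4) = true := by decide +kernel

theorem alts_ok : ∀ l ∈ alts, IsSecondary 24 l.toFinset ∧ 9 ≤ l.toFinset.card ∧
    l.toFinset ≠ RL.toFinset := by decide +kernel

theorem card_R : RL.toFinset.card = 9 := by decide +kernel

/-- **Main result.** The question is answered in the negative: there is a secondary structure `R`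
on `{1, …, n}` (with `n = 24`) containing the arc `{1, n}`, whose tree is binary and unsaturated,
and which is not designable. -/
theorem result : ∃ (n : ℕ) (R : Finset (ℕ × ℕ)), n = 24 ∧ IsSecondary n R ∧ (1, n) ∈ R ∧
    Binary n R ∧ Unsaturated n R ∧ ¬ Designable n R := by
  refine ⟨24, RL.toFinset, rfl, by decide +kernel, by decide +kernel, by decide +kernel,
    ⟨2, by decide +kernel⟩, ?_⟩
  rintro ⟨S, ⟨_, hS⟩, hmax⟩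
  have hS' : ∀ q ∈ RL, Pairs (S q.1) (S q.2) := fun q hq => hS q (List.mem_toFinset.2 hq)
  obtain ⟨l, hl, hp⟩ := chk_sound alts S hS' top (fun _ => 4) (fun _ => Or.inl rfl) chk_top
  obtain ⟨h1, h2, h3⟩ := alts_ok l hl
  have := hmax l.toFinset ⟨h1, fun a ha => hp a (List.mem_toFinset.1 ha)⟩ h3
  rw [card_R] at this
  omega

end Pool.Agent.Results.MP_4bbd08_co.NonDesignable
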